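import Pool.Agent.L7h55.EX.Law
import Pool.Agent.N918.MS.Seq
import Pool.Agent.N220.CF.M

/-! The integers near which all excursions are small: a saving of all powers of the logarithm. -/

set_option autoImplicit false

namespace Pool.Agent.L7h55.EX

open Finset Filter
open Pool.Agent.N918.MS (AlmostAlways)

open scoped Classical in
/-- from the natural numbers to the integers -/
lemma aa_of_nat {P : ℤ → Prop} {Q : ℕ → Prop} (hP : ∀ k : ℤ, Q k.natAbs → P k)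
    (h : ∀ U : ℕ, ∃ X₀ : ℕ, ∀ X : ℕ, X₀ ≤ X → (((Icc 1 X).filter (fun k => ¬ Q k)).card : ℝ) ≤ X / Real.log X ^ U) :
    AlmostAlways P := by
  intro U
  obtain ⟨X₁, hX₁⟩ := h (U + 1)
  have hlog : Tendsto (fun X : ℕ => Real.log (X : ℝ)) atTop atTop :=
    Real.tendsto_log_atTop.comp tendsto_natCast_atTop_atTop
  have ev2 : ∀ᶠ X : ℕ in atTop, (Real.log (X : ℝ)) ^ U ≤ (X : ℝ) / 2 := by
    have h1 : Tendsto (fun x : ℝ => Real.log x ^ U / x) atTop (nhds 0) := by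
      have := (isLittleO_log_rpow_rpow_atTop (s := 1) (U : ℝ) one_pos).tendsto_div_nhds_zero
      refine this.congr fun x => ?_
      rw [Real.rpow_natCast, Real.rpow_one]
    have h2 := (tendsto_natCast_atTop_atTop (R := ℝ)).eventually (h1.eventually_lt_const (show (0 : ℝ) < 1 / 2 by norm_num))
    filter_upwards [h2, eventually_ge_atTop 1] with X h3 h4
    have hX : (0 : ℝ) < X := by exact_mod_cast h4
    rw [div_lt_iff₀ hX] at h3
    linarith
  obtain ⟨X₂, hX₂⟩ := eventually_atTop.1 ((hlog.eventually_ge_atTop 4).and (ev2.and (eventually_ge_atTop 3)))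
  refine ⟨max X₁ X₂, fun X hX => ?_⟩
  obtain ⟨h1, h2, h3⟩ := hX₂ X ((le_max_right _ _).trans hX)
  have h4 := hX₁ X ((le_max_left _ _).trans hX)
  have hX0 : (0 : ℝ) < X := by exact_mod_cast (show 0 < X by omega)
  have hsub : {k : ℤ | k ∈ Set.Icc (-(X : ℤ)) X ∧ ¬ P k} ⊆
      ((insert 0 (((Icc 1 X).filter (fun v => ¬ Q v)).image (fun v : ℕ => (v : ℤ)) ∪
        ((Icc 1 X).filter (fun v => ¬ Q v)).image (fun v : ℕ => -(v : ℤ))) : Finset ℤ) : Set ℤ) := by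
    rintro k ⟨hk, hk2⟩
    rw [Set.mem_Icc] at hk
    rw [mem_coe, mem_insert, mem_union, mem_image, mem_image]
    rcases Nat.eq_zero_or_pos k.natAbs with h0 | h0
    · left; exact Int.natAbs_eq_zero.1 h0
    · right
      have hmem : k.natAbs ∈ (Icc 1 X).filter (fun v => ¬ Q v) := by
        rw [mem_filter, mem_Icc]
        exact ⟨⟨h0, by omega⟩, fun hq => hk2 (hP k hq)⟩
      rcases Int.natAbs_eq k with h5 | h5
      · left; exact ⟨_, hmem, h5.symm⟩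
      · right; exact ⟨_, hmem, h5.symm⟩
  have h5 := Set.ncard_le_ncard hsub (finite_toSet _)
  rw [Set.ncard_coe_finset] at h5
  have h6 := (card_insert_le (0 : ℤ) (((Icc 1 X).filter (fun v => ¬ Q v)).image (fun v : ℕ => (v : ℤ)) ∪
        ((Icc 1 X).filter (fun v => ¬ Q v)).image (fun v : ℕ => -(v : ℤ)))).trans
        (Nat.add_le_add_right ((card_union_le _ _).trans (Nat.add_le_add card_image_le card_image_le)) 1)
  have h7 : ({k : ℤ | k ∈ Set.Icc (-(X : ℤ)) X ∧ ¬ P k}.ncard : ℝ) ≤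
      2 * (((Icc 1 X).filter (fun v => ¬ Q v)).card : ℝ) + 1 := by
    have := h5.trans h6
    have h8 : ({k : ℤ | k ∈ Set.Icc (-(X : ℤ)) X ∧ ¬ P k}.ncard : ℝ) ≤
      ((((Icc 1 X).filter (fun v => ¬ Q v)).card + ((Icc 1 X).filter (fun v => ¬ Q v)).card + 1 : ℕ) : ℝ) := by
      exact_mod_cast this
    push_cast at h8
    linarith
  have hl0 : 0 < Real.log X := by linarith
  have h8 : (X : ℝ) / Real.log X ^ (U + 1) ≤ (X / Real.log X ^ U) / 4 := by
    rw [pow_succ, ← div_div]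
    apply div_le_div_of_nonneg_left _ (by norm_num) h1
    positivity
  have h9 : (1 : ℝ) ≤ (X / Real.log X ^ U) / 2 := by
    rw [le_div_iff₀ (by norm_num), le_div_iff₀ (by positivity)]
    linarith
  linarith

open scoped Classical in
/-- the integers in a window -/
lemma card_window (X m : ℕ) {r : ℝ} (hr : 0 ≤ r) :
    (((Icc 1 X).filter (fun k : ℕ => |(m : ℝ) - k| ≤ r)).card : ℝ) ≤ 2 * r + 1 := by
  have hsub : (Icc 1 X).filter (fun k : ℕ => |(m : ℝ) - k| ≤ r) ⊆ Icc (m - ⌊r⌋₊) (m + ⌊r⌋₊) := by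
    intro k hk
    rw [mem_filter] at hk
    obtain ⟨-, hk⟩ := hk
    rw [abs_le] at hk
    rw [mem_Icc]
    have h1 : ⌊r⌋₊ ≤ r := Nat.floor_le hr
    constructor
    · by_contra hcon
      push Not at hcon
      have h2 : k + ⌊r⌋₊ + 1 ≤ m := by omega
      have h3 : (k : ℝ) + ⌊r⌋₊ + 1 ≤ m := by exact_mod_cast h2
      have h4 := Nat.lt_floor_add_one r
      linarith
    · by_contra hcon
      push Not at hcon
      have h2 : m + ⌊r⌋₊ + 1 ≤ k := by omega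
      have h3 : (m : ℝ) + ⌊r⌋₊ + 1 ≤ k := by exact_mod_cast h2
      have h4 := Nat.lt_floor_add_one r
      linarith
  have h1 := card_le_card hsub
  rw [Nat.card_Icc] at h1
  have h2 : ((Icc 1 X).filter (fun k : ℕ => |(m : ℝ) - k| ≤ r)).card ≤ 2 * ⌊r⌋₊ + 1 := by omega
  have h3 : (((Icc 1 X).filter (fun k : ℕ => |(m : ℝ) - k| ≤ r)).card : ℝ) ≤ 2 * (⌊r⌋₊ : ℝ) + 1 := by exact_mod_cast h2
  have h4 : (⌊r⌋₊ : ℝ) ≤ r := Nat.floor_le hr
  linarith

open scoped Classical in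
/-- near all but `X / (log X) ^ U` of the integers up to `X` all excursions are small -/
lemma near_count {B C : ℝ} (hC : 0 < C) (law : ∀ M : ℝ, 2 ≤ M → ∀ y z : ℝ, 1 ≤ y → 2 ≤ z → ∀ X : ℝ, 1 ≤ X →
    {m : ℕ | (1 ≤ m ∧ (m : ℝ) ≤ M ∧ ¬ DescendsBelow B y (z * m) m) ∧ (m : ℝ) ≤ X}.Finite ∧
    ({m : ℕ | (1 ≤ m ∧ (m : ℝ) ≤ M ∧ ¬ DescendsBelow B y (z * m) m) ∧ (m : ℝ) ≤ X}.ncard : ℝ) ≤
      C * Real.log M ^ 4 * (1 / z + y ^ (-(6 / 100) : ℝ)) * X)
    {Y Z : ℕ → ℝ} (hY : ∀ U : ℕ, ∀ᶠ m : ℕ in atTop, Real.log m ^ U ≤ Y m)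
    (hZ : ∀ U : ℕ, ∀ᶠ m : ℕ in atTop, Real.log m ^ U ≤ Z m) (W U : ℕ) :
    ∃ X₀ : ℕ, ∀ X : ℕ, X₀ ≤ X → (((Icc 1 X).filter (fun k : ℕ => ¬ ∀ m : ℕ, 1 ≤ m →
      |(m : ℝ) - k| ≤ Real.log k ^ W → DescendsBelow B (Y m) (Z m * m) m)).card : ℝ) ≤ X / Real.log X ^ U := by
  obtain ⟨J, hJ⟩ : ∃ J : ℕ, J = 17 * (U + W + 6) := ⟨_, rfl⟩
  obtain ⟨N₁, hN₁⟩ := eventually_atTop.1 ((hY J).and (hZ J))
  have hlog : Tendsto (fun X : ℕ => Real.log (X : ℝ)) atTop atTop :=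
    Real.tendsto_log_atTop.comp tendsto_natCast_atTop_atTop
  have hlp : ∀ (V : ℕ) (s c : ℝ), 0 < s → 0 < c → ∀ᶠ X : ℕ in atTop, Real.log X ^ V ≤ c * (X : ℝ) ^ s := by
    intro V s c hs hc
    have h1 : Tendsto (fun x : ℝ => Real.log x ^ V / x ^ s) atTop (nhds 0) := by
      have := (isLittleO_log_rpow_rpow_atTop (s := s) (V : ℝ) hs).tendsto_div_nhds_zero
      refine this.congr fun x => ?_
      rw [Real.rpow_natCast]
    filter_upwards [(tendsto_natCast_atTop_atTop (R := ℝ)).eventually (h1.eventually_lt_const hc),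
      eventually_ge_atTop 1] with x h3 h4
    have hx : (0 : ℝ) < x := by exact_mod_cast h4
    rw [div_lt_iff₀ (by positivity)] at h3
    exact h3.le
  obtain ⟨K₁, hK₁⟩ := eventually_atTop.1 (hlp W 1 (1 / 2) one_pos (by norm_num))
  have hsq : Tendsto (fun X : ℕ => (X : ℝ) ^ (1 / 2 : ℝ)) atTop atTop :=
    (tendsto_rpow_atTop (by norm_num)).comp tendsto_natCast_atTop_atTop
  obtain ⟨X₀, hX₀⟩ := eventually_atTop.1 ((hlog.eventually_ge_atTop (6 + 384 * C * 3 ^ (U + W + 6))).and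
    ((hlp U (1 / 2) (1 / 2) (by norm_num) (by norm_num)).and
      ((hsq.eventually_ge_atTop (2 * N₁ + K₁ + 1)).and (eventually_ge_atTop 1))))
  refine ⟨X₀, fun X hX => ?_⟩
  obtain ⟨h1, h2, h3, h4⟩ := hX₀ X hX
  obtain ⟨x, hx⟩ : ∃ x : ℝ, x = (X : ℝ) := ⟨_, rfl⟩
  obtain ⟨ℓ, hℓ⟩ : ∃ ℓ : ℝ, ℓ = Real.log X := ⟨_, rfl⟩
  obtain ⟨r, hr⟩ : ∃ r : ℝ, r = (X : ℝ) ^ (1 / 2 : ℝ) := ⟨_, rfl⟩
  rw [← hℓ] at h1 h2 ⊢
  rw [← hr] at h2 h3
  rw [← hx]
  have hx1 : 1 ≤ x := by rw [hx]; exact_mod_cast h4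
  have hx0 : 0 < x := by linarith
  have h3C : 0 < 384 * C * 3 ^ (U + W + 6) := by positivity
  have hℓ6 : 6 ≤ ℓ := by linarith
  have hℓ0 : 0 < ℓ := by linarith
  have hN0 : (0 : ℝ) ≤ N₁ := Nat.cast_nonneg _
  have hK0 : (0 : ℝ) ≤ K₁ := Nat.cast_nonneg _
  have hr0 : 0 < r := by linarith
  have hrr : r * r = x := by
    rw [hr, ← Real.rpow_add (by rw [← hx]; exact hx0), hx]
    norm_num
  obtain ⟨z, hz⟩ : ∃ z : ℝ, z = (ℓ / 3) ^ J := ⟨_, rfl⟩
  have hl3 : 2 ≤ ℓ / 3 := by linarith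
  have hJ1 : J ≠ 0 := by omega
  have hz2 : 2 ≤ z := by
    rw [hz]
    exact hl3.trans (le_self_pow₀ (by linarith) hJ1)
  have hz0 : 0 < z := by linarith
  have hlr : Real.log r = ℓ / 2 := by
    rw [hr, Real.log_rpow (by rw [← hx]; exact hx0), ← hℓ]
    ring
  obtain ⟨E, hE⟩ : ∃ E : Set ℕ, E = {m : ℕ | (1 ≤ m ∧ (m : ℝ) ≤ 2 * x ∧ ¬ DescendsBelow B z (z * m) m) ∧
    (m : ℝ) ≤ 2 * x} := ⟨_, rfl⟩
  obtain ⟨hEf, hEc⟩ := law (2 * x) (by linarith) z z (by linarith) hz2 (2 * x) (by linarith)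
  rw [← hE] at hEf hEc
  -- the bound for `E`
  have hE2 : (E.ncard : ℝ) ≤ 64 * C * 3 ^ (U + W + 6) * (x / ℓ ^ (U + W + 2)) := by
    have a1 : Real.log (2 * x) ≤ 2 * ℓ := by
      rw [Real.log_mul (by norm_num) hx0.ne', hx, ← hℓ]
      have := Real.log_two_lt_d9
      linarith
    have a0 : 0 ≤ Real.log (2 * x) := Real.log_nonneg (by linarith)
    have a2 : Real.log (2 * x) ^ 4 ≤ 16 * ℓ ^ 4 := by
      calc Real.log (2 * x) ^ 4 ≤ (2 * ℓ) ^ 4 := pow_le_pow_left₀ a0 a1 4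
        _ = _ := by ring
    have a3 : z ^ (-(6 / 100) : ℝ) ≤ 3 ^ (U + W + 6) / ℓ ^ (U + W + 6) := by
      have b1 : z ^ (-(6 / 100) : ℝ) = (ℓ / 3) ^ (-(6 / 100 * J) : ℝ) := by
        rw [hz, ← Real.rpow_natCast, ← Real.rpow_mul (by linarith)]
        congr 1
        ring
      have b2 : (ℓ / 3) ^ (-(6 / 100 * J) : ℝ) ≤ (ℓ / 3) ^ (-((U + W + 6 : ℕ) : ℝ)) := by
        apply Real.rpow_le_rpow_of_exponent_le (by linarith)
        rw [hJ]
        push_cast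
        have : (0 : ℝ) ≤ U := Nat.cast_nonneg _
        have : (0 : ℝ) ≤ W := Nat.cast_nonneg _
        linarith
      have b3 : (ℓ / 3) ^ (-((U + W + 6 : ℕ) : ℝ)) = 3 ^ (U + W + 6) / ℓ ^ (U + W + 6) := by
        rw [Real.rpow_neg (by linarith), Real.rpow_natCast, div_pow, inv_div]
      rw [b1]
      exact b2.trans (le_of_eq b3)
    have a4 : 1 / z ≤ z ^ (-(6 / 100) : ℝ) := by
      rw [one_div, ← Real.rpow_neg_one]
      exact Real.rpow_le_rpow_of_exponent_le (by linarith) (by norm_num)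
    have a5 : 0 ≤ z ^ (-(6 / 100) : ℝ) := by positivity
    calc (E.ncard : ℝ) ≤ C * Real.log (2 * x) ^ 4 * (1 / z + z ^ (-(6 / 100) : ℝ)) * (2 * x) := hEc
      _ ≤ C * (16 * ℓ ^ 4) * (2 * (3 ^ (U + W + 6) / ℓ ^ (U + W + 6))) * (2 * x) := by
          apply mul_le_mul_of_nonneg_right _ (by linarith)
          apply mul_le_mul _ (by linarith) (by positivity) (by positivity)
          exact mul_le_mul_of_nonneg_left a2 hC.le
      _ = _ := by
          rw [show U + W + 6 = (U + W + 2) + 4 by ring, pow_add ℓ]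
          field_simp
          ring
  -- the covering
  have hW0 : 0 ≤ ℓ ^ W := by positivity
  have hcov : (Icc 1 X).filter (fun k : ℕ => ¬ ∀ m : ℕ, 1 ≤ m →
      |(m : ℝ) - k| ≤ Real.log k ^ W → DescendsBelow B (Y m) (Z m * m) m) ⊆
      Icc 1 ⌊r⌋₊ ∪ hEf.toFinset.biUnion (fun m => (Icc 1 X).filter (fun k : ℕ => |(m : ℝ) - k| ≤ ℓ ^ W)) := by
    intro k hk
    rw [mem_filter, mem_Icc] at hk
    obtain ⟨⟨hk1, hkX⟩, hk2⟩ := hk
    rw [mem_union]
    rcases le_or_gt (k : ℝ) r with hkr | hkr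
    · left
      rw [mem_Icc]
      exact ⟨hk1, Nat.le_floor hkr⟩
    · right
      push Not at hk2
      obtain ⟨m, hm1, hm2, hm3⟩ := hk2
      have hkX' : (k : ℝ) ≤ x := by rw [hx]; exact_mod_cast hkX
      have hk0 : (0 : ℝ) < k := by linarith
      have hk1' : (1 : ℝ) ≤ k := by exact_mod_cast hk1
      have c1 : K₁ ≤ k := by
        have : (K₁ : ℝ) ≤ k := by linarith
        exact_mod_cast this
      have c2 := hK₁ k c1
      rw [Real.rpow_one] at c2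
      have c3 := abs_le.1 (hm2.trans c2)
      have c4 : r / 2 ≤ (m : ℝ) := by linarith
      have c5 : N₁ ≤ m := by
        have : (N₁ : ℝ) ≤ m := by linarith
        exact_mod_cast this
      obtain ⟨c6, c7⟩ := hN₁ m c5
      have c8 : ℓ / 3 ≤ Real.log m := by
        have d1 : Real.log (r / 2) ≤ Real.log m := Real.log_le_log (by linarith) c4
        rw [Real.log_div hr0.ne' (by norm_num), hlr] at d1
        have := Real.log_two_lt_d9
        linarith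
      have c9 : z ≤ Real.log m ^ J := by
        rw [hz]
        exact pow_le_pow_left₀ (by linarith) c8 J
      have c10 : (m : ℝ) ≤ 2 * x := by linarith
      rw [mem_biUnion]
      refine ⟨m, ?_, ?_⟩
      · rw [Set.Finite.mem_toFinset, hE]
        refine ⟨⟨hm1, c10, fun hd => hm3 ?_⟩, c10⟩
        refine mono (c9.trans c6) ?_ hd
        exact mul_le_mul_of_nonneg_right (c9.trans c7) (Nat.cast_nonneg m)
      · rw [mem_filter, mem_Icc]
        refine ⟨⟨hk1, hkX⟩, hm2.trans ?_⟩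
        apply pow_le_pow_left₀ (Real.log_nonneg hk1')
        rw [hℓ, ← hx]
        exact Real.log_le_log hk0 hkX'
  have hcard : (((Icc 1 X).filter (fun k : ℕ => ¬ ∀ m : ℕ, 1 ≤ m →
      |(m : ℝ) - k| ≤ Real.log k ^ W → DescendsBelow B (Y m) (Z m * m) m)).card : ℝ) ≤
      r + E.ncard * (3 * ℓ ^ W) := by
    have d1 := (card_le_card hcov).trans (card_union_le _ _)
    have d2 : ((hEf.toFinset.biUnion (fun m => (Icc 1 X).filter (fun k : ℕ => |(m : ℝ) - k| ≤ ℓ ^ W))).card : ℝ) ≤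
        E.ncard * (3 * ℓ ^ W) := by
      have e1 : ((hEf.toFinset.biUnion (fun m => (Icc 1 X).filter (fun k : ℕ => |(m : ℝ) - k| ≤ ℓ ^ W))).card : ℝ) ≤
          ∑ m ∈ hEf.toFinset, (((Icc 1 X).filter (fun k : ℕ => |(m : ℝ) - k| ≤ ℓ ^ W)).card : ℝ) := by
        exact_mod_cast card_biUnion_le
      refine e1.trans ((sum_le_card_nsmul _ _ (3 * ℓ ^ W) fun m _ => ?_).trans (le_of_eq ?_))
      · have e2 := card_window X m hW0
        have e3 : (1 : ℝ) ≤ ℓ ^ W := one_le_pow₀ (by linarith)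
        linarith
      · rw [nsmul_eq_mul, Set.ncard_eq_toFinset_card E hEf]
    have d3 : ((Icc 1 ⌊r⌋₊).card : ℝ) ≤ r := by
      rw [Nat.card_Icc, Nat.add_sub_cancel]
      exact Nat.floor_le hr0.le
    have d4 : (((Icc 1 X).filter (fun k : ℕ => ¬ ∀ m : ℕ, 1 ≤ m →
      |(m : ℝ) - k| ≤ Real.log k ^ W → DescendsBelow B (Y m) (Z m * m) m)).card : ℝ) ≤
      ((Icc 1 ⌊r⌋₊).card : ℝ) +
        ((hEf.toFinset.biUnion (fun m => (Icc 1 X).filter (fun k : ℕ => |(m : ℝ) - k| ≤ ℓ ^ W))).card : ℝ) := by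
      exact_mod_cast d1
    linarith
  refine hcard.trans ?_
  have hU0 : 0 < ℓ ^ U := by positivity
  have f1 : r ≤ x / ℓ ^ U / 2 := by
    rw [le_div_iff₀ (by norm_num), le_div_iff₀ hU0, ← hrr]
    nlinarith
  have f2 : (E.ncard : ℝ) * (3 * ℓ ^ W) ≤ x / ℓ ^ U / 2 := by
    have g1 : (E.ncard : ℝ) * (3 * ℓ ^ W) ≤ 64 * C * 3 ^ (U + W + 6) * (x / ℓ ^ (U + W + 2)) * (3 * ℓ ^ W) :=
      mul_le_mul_of_nonneg_right hE2 (by positivity)
    have g2 : 64 * C * 3 ^ (U + W + 6) * (x / ℓ ^ (U + W + 2)) * (3 * ℓ ^ W) =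
        (384 * C * 3 ^ (U + W + 6)) / ℓ ^ 2 * (x / ℓ ^ U / 2) := by
      rw [show U + W + 2 = U + W + 2 from rfl, pow_add ℓ (U + W) 2, pow_add ℓ U W]
      field_simp
      ring
    have g3 : (384 * C * 3 ^ (U + W + 6)) / ℓ ^ 2 ≤ 1 := by
      rw [div_le_one (by positivity)]
      nlinarith
    rw [g2] at g1
    refine g1.trans ?_
    calc _ ≤ 1 * (x / ℓ ^ U / 2) := mul_le_mul_of_nonneg_right g3 (by positivity)
      _ = _ := one_mul _
  linarith

end Pool.Agent.L7h55.EX
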