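import Pool.Agent.N905.EX.Law

/-!
The law of the excursions of `N905.EX`, with a bound for the excursion proportional to the starting
point: common definitions and counts for the results on windows.
-/

set_option autoImplicit false

namespace Pool.Agent.L7h55.EX

open Finset
open Pool.Agent.TH930.LT Pool.Agent.N905.EX

/-- the accelerated `3x+1` map -/
def T (n : ℕ) : ℕ := if n % 2 = 0 then n / 2 else (3 * n + 1) / 2

/-- within `B log n` steps the trajectory of `n` reaches a value `≤ y`, and it stays `≤ V` until then -/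
def DescendsBelow (B y V : ℝ) (n : ℕ) : Prop :=
  ∃ m : ℕ, (m : ℝ) ≤ B * Real.log n ∧ ((T^[m] n : ℕ) : ℝ) ≤ y ∧ ∀ j ≤ m, ((T^[j] n : ℕ) : ℝ) ≤ V

/-- the maximum excursion of `n` is at most `V` -/
def ExcursionLE (n : ℕ) (V : ℝ) : Prop := ∀ k, ((T^[k] n : ℕ) : ℝ) ≤ V

lemma T_eq : T = Pool.Agent.Helper894.Collatz.T := rfl

lemma exc_iff {B y V : ℝ} {n : ℕ} : ¬ DescendsBelow B y V n ↔ excBad B y V n := by
  unfold DescendsBelow excBad
  rw [T_eq, not_iff_not]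
  apply exists_congr
  intro m
  tauto

lemma law : ∃ B C : ℝ, 0 < B ∧ 0 < C ∧ ∀ x y V : ℝ, 2 ≤ x → 1 ≤ y → x ≤ V →
    ({n : ℕ | 1 ≤ n ∧ (n : ℝ) ≤ x ∧ ¬ DescendsBelow B y V n}.ncard : ℝ) ≤
      C * Real.log x ^ 4 * (x ^ 2 / V + x / y ^ (6 / 100 : ℝ)) := by
  obtain ⟨a, C₁, ha0, -, hC₁, hQ⟩ := card_Ps
  obtain ⟨C₂, hC₂, hW⟩ := card_Wx
  have e94 : (1 : ℝ) - 6 / 100 = 94 / 100 := by norm_num
  obtain ⟨C, hC, h⟩ := exc_law (c := 6 / 100) (B := 2 / a) ha0 hC₁ hC₂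
    (fun i => by rw [e94]; exact hQ i) (fun V hV i => by rw [e94]; exact hW V hV i)
    (by positivity) (by rw [div_mul_cancel₀ _ ha0.ne']; norm_num) (by norm_num) (by norm_num)
  refine ⟨2 / a, C, by positivity, hC, fun x y V hx hy hV => ?_⟩
  rw [add_comm (x ^ 2 / V)]
  refine le_trans (le_of_eq ?_) (h x y V hx hy hV)
  congr 2
  ext n
  simp only [Set.mem_ofPred_eq]
  constructor
  · rintro ⟨h1, h2, h3⟩
    exact ⟨h1, h2, exc_iff.1 h3⟩
  · rintro ⟨h1, h2, h3⟩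
    exact ⟨h1, h2, exc_iff.2 h3⟩

lemma mono {B y y' V V' : ℝ} {n : ℕ} (hy : y ≤ y') (hV : V ≤ V') (h : DescendsBelow B y V n) :
    DescendsBelow B y' V' n := by
  obtain ⟨m, h1, h2, h3⟩ := h
  exact ⟨m, h1, h2.trans hy, fun j hj => (h3 j hj).trans hV⟩

/-- after the descent the excursions of `n` and of a small term are the same -/
lemma exc_transfer {B y V : ℝ} {n : ℕ} (h : DescendsBelow B y V n) :
    ∃ u k : ℕ, T^[k] n = u ∧ (u : ℝ) ≤ y ∧
      ∀ V' : ℝ, V ≤ V' → (ExcursionLE n V' ↔ ExcursionLE u V') := by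
  obtain ⟨m, -, h2, h3⟩ := h
  refine ⟨T^[m] n, m, rfl, h2, fun V' hV => ⟨fun h k => ?_, fun h k => ?_⟩⟩
  · rw [← Function.iterate_add_apply]
    exact h _
  · rcases Nat.lt_or_ge k m with hk | hk
    · exact (h3 k hk.le).trans hV
    · have h4 := h (k - m)
      rw [← Function.iterate_add_apply, Nat.sub_add_cancel hk] at h4
      exact h4

/-- the law with the excursion bound `z m` proportional to the starting point `m` -/
lemma law_prop : ∃ B C : ℝ, 0 < B ∧ 0 < C ∧ ∀ M : ℝ, 2 ≤ M → ∀ y z : ℝ, 1 ≤ y → 2 ≤ z → ∀ X : ℝ, 1 ≤ X →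
    {m : ℕ | (1 ≤ m ∧ (m : ℝ) ≤ M ∧ ¬ DescendsBelow B y (z * m) m) ∧ (m : ℝ) ≤ X}.Finite ∧
    ({m : ℕ | (1 ≤ m ∧ (m : ℝ) ≤ M ∧ ¬ DescendsBelow B y (z * m) m) ∧ (m : ℝ) ≤ X}.ncard : ℝ) ≤
      C * Real.log M ^ 4 * (1 / z + y ^ (-(6 / 100) : ℝ)) * X := by
  obtain ⟨B, C, hB, hC, law⟩ := law
  refine ⟨B, 4 * C, hB, by positivity, fun M hM y z hy hz X hX => ?_⟩
  have hy0 : 0 < y := by linarith
  have hz0 : 0 < z := by linarith
  have hlogM : 0 ≤ Real.log M := Real.log_nonneg (by linarith)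
  obtain ⟨D, hD⟩ : ∃ D : ℝ, D = C * Real.log M ^ 4 * (2 / z + y ^ (-(6 / 100) : ℝ)) := ⟨_, rfl⟩
  have hD0 : 0 ≤ D := by
    rw [hD]
    positivity
  have hfin : ∀ Y : ℕ, {m : ℕ | 1 ≤ m ∧ m ≤ Y ∧ ¬ DescendsBelow B y (z * m) m}.Finite := fun Y =>
    (Set.finite_Icc 1 Y).subset fun n hn => ⟨hn.1, hn.2.1⟩
  have key : ∀ Y : ℕ, (Y : ℝ) ≤ M →
      ({m : ℕ | 1 ≤ m ∧ m ≤ Y ∧ ¬ DescendsBelow B y (z * m) m}.ncard : ℝ) ≤ 2 * D * Y := by
    intro Y
    induction Y using Nat.strong_induction_on with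
    | _ Y ih =>
      intro hYM
      rcases Nat.lt_or_ge Y 2 with h2 | h2
      · have h3 : {m : ℕ | 1 ≤ m ∧ m ≤ Y ∧ ¬ DescendsBelow B y (z * m) m} = ∅ := by
          ext m
          simp only [Set.mem_ofPred_eq, Set.mem_empty_iff_false, iff_false]
          rintro ⟨h3, h4, h5⟩
          obtain rfl : m = 1 := by omega
          apply h5
          refine ⟨0, ?_, ?_, ?_⟩
          · simp
          · simpa using hy
          · intro j hj
            obtain rfl : j = 0 := by omega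
            simp only [Function.iterate_zero, id_eq, Nat.cast_one, mul_one]
            linarith
        rw [h3, Set.ncard_empty]
        push_cast
        positivity
      · obtain ⟨Z, hZ⟩ : ∃ Z : ℕ, Z = Y / 2 := ⟨_, rfl⟩
        have hZY : Z < Y := by omega
        have hYR : (2 : ℝ) ≤ Y := by exact_mod_cast h2
        have hY0 : (0 : ℝ) < Y := by linarith
        have hZR : (Z : ℝ) ≤ Y / 2 := by
          rw [le_div_iff₀ (by norm_num)]
          have : Z * 2 ≤ Y := by omega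
          exact_mod_cast this
        have i1 := ih Z hZY ((by linarith : (Z : ℝ) ≤ Y).trans hYM)
        have hV : (Y : ℝ) ≤ z * Y / 2 := by nlinarith
        have i2 := law Y y (z * Y / 2) hYR hy hV
        have hfin2 : {n : ℕ | 1 ≤ n ∧ (n : ℝ) ≤ (Y : ℝ) ∧ ¬ DescendsBelow B y (z * Y / 2) n}.Finite :=
          (Set.finite_Icc 1 Y).subset fun n hn => ⟨hn.1, by exact_mod_cast hn.2.1⟩
        have hsub : {m : ℕ | 1 ≤ m ∧ m ≤ Y ∧ ¬ DescendsBelow B y (z * m) m} ⊆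
            {m : ℕ | 1 ≤ m ∧ m ≤ Z ∧ ¬ DescendsBelow B y (z * m) m} ∪
            {n : ℕ | 1 ≤ n ∧ (n : ℝ) ≤ (Y : ℝ) ∧ ¬ DescendsBelow B y (z * Y / 2) n} := by
          rintro n ⟨g1, g2, g3⟩
          rcases Nat.lt_or_ge Z n with g4 | g4
          · right
            refine ⟨g1, by exact_mod_cast g2, fun g5 => g3 (mono le_rfl ?_ g5)⟩
            have : (Y : ℝ) ≤ n * 2 := by
              have : Y ≤ n * 2 := by omega
              exact_mod_cast this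
            rw [div_le_iff₀ (by norm_num), mul_assoc]
            exact mul_le_mul_of_nonneg_left this hz0.le
          · left
            exact ⟨g1, g4, g3⟩
        have j1 : ({m : ℕ | 1 ≤ m ∧ m ≤ Y ∧ ¬ DescendsBelow B y (z * m) m}.ncard : ℝ) ≤
            ({m : ℕ | 1 ≤ m ∧ m ≤ Z ∧ ¬ DescendsBelow B y (z * m) m}.ncard : ℝ) +
            ({n : ℕ | 1 ≤ n ∧ (n : ℝ) ≤ (Y : ℝ) ∧ ¬ DescendsBelow B y (z * Y / 2) n}.ncard : ℝ) := by
          have := (Set.ncard_le_ncard hsub ((hfin Z).union hfin2)).trans (Set.ncard_union_le _ _)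
          exact_mod_cast this
        have j2 : C * Real.log Y ^ 4 * ((Y : ℝ) ^ 2 / (z * Y / 2) + Y / y ^ (6 / 100 : ℝ)) ≤ D * Y := by
          have e1 : (Y : ℝ) ^ 2 / (z * Y / 2) + Y / y ^ (6 / 100 : ℝ) = (2 / z + y ^ (-(6 / 100) : ℝ)) * Y := by
            rw [Real.rpow_neg hy0.le]
            field_simp
          have e2 : Real.log Y ^ 4 ≤ Real.log M ^ 4 :=
            pow_le_pow_left₀ (Real.log_nonneg (by linarith)) (Real.log_le_log hY0 hYM) 4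
          rw [e1, hD, ← mul_assoc]
          apply mul_le_mul_of_nonneg_right _ hY0.le
          apply mul_le_mul_of_nonneg_right _ (by positivity)
          exact mul_le_mul_of_nonneg_left e2 hC.le
        have j3 : 2 * D * Z ≤ D * Y := by nlinarith
        linarith
  have hfinX : {m : ℕ | (1 ≤ m ∧ (m : ℝ) ≤ M ∧ ¬ DescendsBelow B y (z * m) m) ∧ (m : ℝ) ≤ X}.Finite := by
    apply (Set.finite_Iic ⌊X⌋₊).subset
    rintro m ⟨-, hm⟩
    exact Nat.le_floor hm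
  refine ⟨hfinX, ?_⟩
  obtain ⟨Y, hY⟩ : ∃ Y : ℕ, Y = ⌊min X M⌋₊ := ⟨_, rfl⟩
  have hmin : 0 ≤ min X M := le_min (by linarith) (by linarith)
  have hY1 : (Y : ℝ) ≤ min X M := by
    rw [hY]
    exact Nat.floor_le hmin
  have h1 := key Y (hY1.trans (min_le_right _ _))
  have hsub : {m : ℕ | (1 ≤ m ∧ (m : ℝ) ≤ M ∧ ¬ DescendsBelow B y (z * m) m) ∧ (m : ℝ) ≤ X} ⊆
      {m : ℕ | 1 ≤ m ∧ m ≤ Y ∧ ¬ DescendsBelow B y (z * m) m} := by
    rintro m ⟨⟨g1, g2, g3⟩, g4⟩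
    refine ⟨g1, ?_, g3⟩
    rw [hY]
    exact Nat.le_floor (le_min g4 g2)
  have h2 : ({m : ℕ | (1 ≤ m ∧ (m : ℝ) ≤ M ∧ ¬ DescendsBelow B y (z * m) m) ∧ (m : ℝ) ≤ X}.ncard : ℝ) ≤
      ({m : ℕ | 1 ≤ m ∧ m ≤ Y ∧ ¬ DescendsBelow B y (z * m) m}.ncard : ℝ) := by
    exact_mod_cast Set.ncard_le_ncard hsub (hfin Y)
  have h3 : 2 * D * Y ≤ 2 * D * X := mul_le_mul_of_nonneg_left (hY1.trans (min_le_left _ _)) (by positivity)
  have h4 : 2 * D ≤ 4 * C * Real.log M ^ 4 * (1 / z + y ^ (-(6 / 100) : ℝ)) := by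
    have e3 : 2 * (2 / z + y ^ (-(6 / 100) : ℝ)) ≤ 4 * (1 / z + y ^ (-(6 / 100) : ℝ)) := by
      have : 0 ≤ y ^ (-(6 / 100) : ℝ) := by positivity
      have e4 : 2 * (2 / z) = 4 * (1 / z) := by ring
      linarith
    calc 2 * D = C * Real.log M ^ 4 * (2 * (2 / z + y ^ (-(6 / 100) : ℝ))) := by rw [hD]; ring
      _ ≤ C * Real.log M ^ 4 * (4 * (1 / z + y ^ (-(6 / 100) : ℝ))) :=
          mul_le_mul_of_nonneg_left e3 (by positivity)
      _ = _ := by ring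
  calc _ ≤ _ := h2
    _ ≤ 2 * D * Y := h1
    _ ≤ 2 * D * X := h3
    _ ≤ _ := mul_le_mul_of_nonneg_right h4 (by linarith)

end Pool.Agent.L7h55.EX
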