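import Pool.Agent.L7h55.EX.Law
import Pool.Agent.N481.MV.Two

/-! The number of the `n ≤ X` with an excursion beyond `n ^ (1 + v)` before the descent below `n ^ δ`. -/

set_option autoImplicit false

namespace Pool.Agent.L7h55.EX

/-- the number of the exceptional starting points -/
lemma count_two : ∃ B : ℝ, 0 < B ∧ ∀ v δ : ℝ, 0 < v → v ≤ 1 → 0 < δ →
    ∀ ε : ℝ, 0 < ε → ∃ K : ℝ, ∀ X : ℕ, 1 ≤ X →
      ({n : ℕ | 1 ≤ n ∧ n ≤ X ∧ True ∧ ¬ DescendsBelow B ((n : ℝ) ^ δ) ((n : ℝ) ^ (1 + v)) n}.ncard : ℝ) ≤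
        K * (X : ℝ) ^ (1 - min v (6 / 100 * δ) + ε) := by
  obtain ⟨B, C, hB, hC, law⟩ := law
  refine ⟨B, hB, fun v δ hv hv1 hδ ε hε => ?_⟩
  obtain ⟨K, hK⟩ := Pool.Agent.N481.MV.two_scale (Bad := fun y V n => ¬ DescendsBelow B y V n) hv hv1 hδ hC.le
        (fun y y' V V' n hy hV h h' => h (mono hy hV h')) (fun x y V hx hy hV => law x y V hx hy hV) ε hε
  refine ⟨K, fun X hX => ?_⟩
  have h1 := (hK X (by exact_mod_cast hX)).2
  refine le_trans (le_of_eq ?_) h1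
  congr 2
  ext n
  simp only [Set.mem_ofPred_eq, Nat.cast_le]
  tauto

end Pool.Agent.L7h55.EX
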